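import Pool.Agent.Helper74_RL.Stmts

noncomputable section

open scoped ContDiff Topology ENNReal RealInnerProductSpace BoundedContinuousFunction
set_option maxSynthPendingDepth 3
open Set Metric

namespace Pool.Agent.RLim.H74

open Pool.Agent.RF Pool.Agent.RLim

theorem continuous_hq : Continuous hq := by
  unfold hq
  fun_prop

theorem clo : CloStmt := by
  intro D
  constructor
  · intro j
    unfold Bl
    simp only [ofPred_forall]
    refine isClosed_iInter fun k => ?_
    have h1 : Continuous fun p : E4 × (Fin j → E3) => p.2 k := by fun_prop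
    have h2 : Continuous fun p : E4 × (Fin j → E3) => hq (p.1 - D.P k) :=
      continuous_hq.comp (by fun_prop)
    have h3 : Continuous fun p : E4 × (Fin j → E3) => D.w k • hq (p.1 - D.P k) := by fun_prop
    have h4 : Continuous fun p : E4 × (Fin j → E3) => ‖p.1 - D.P k‖ ^ 2 • p.2 k := by fun_prop
    exact (isClosed_eq h1.norm continuous_const).inter (isClosed_eq h4 h3)
  · unfold BlI
    simp only [ofPred_forall]
    refine isClosed_iInter fun k => ?_
    have h1 : Continuous fun p : E4 × (ℕ →ᵇ E3) => p.2 k :=
      ((continuous_apply k).comp BoundedContinuousFunction.continuous_coe).comp continuous_snd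
    have h2 : Continuous fun p : E4 × (ℕ →ᵇ E3) => hq (p.1 - D.P k) :=
      continuous_hq.comp (by fun_prop)
    have h3 : Continuous fun p : E4 × (ℕ →ᵇ E3) => D.w k • hq (p.1 - D.P k) := by fun_prop
    have h4 : Continuous fun p : E4 × (ℕ →ᵇ E3) => ‖p.1 - D.P k‖ ^ 2 • p.2 k := by fun_prop
    exact (isClosed_eq h1.norm continuous_const).inter (isClosed_eq h4 h3)

end Pool.Agent.RLim.H74
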