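import Pool.Agent.Helper74_RL.Stmts

noncomputable section

open scoped ContDiff Topology ENNReal RealInnerProductSpace BoundedContinuousFunction
set_option maxSynthPendingDepth 3
open Set Metric

namespace Pool.Agent.RLim.H74

open Pool.Agent.RF Pool.Agent.RLim

theorem le_of_sq {a b c : ℝ} (hc : 0 < c) (_ : 0 ≤ a) (h : c * a ^ 2 ≤ b) :
    a ≤ 1 / √c * √b := by
  have hs : 0 < √c := Real.sqrt_pos.2 hc
  have h1 : √c * a ≤ √b := by
    apply Real.le_sqrt_of_sq_le
    rw [mul_pow, Real.sq_sqrt hc.le]
    exact h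
  rw [one_div, inv_mul_eq_div, le_div_iff₀ hs]
  linarith

/-- a function on the blow-up which is `κ`-Lipschitz in the charts -/
theorem lip_of_charts (hSlo : SloStmt) {D : MetricData} {j : ℕ} {F : Type}
    [NormedAddCommGroup F] [NormedSpace ℝ F] (f : Bl D j → F) (κ : ℝ) (hκ : 0 ≤ κ)
    (h0 : ∀ X ∈ U0 D j, DifferentiableAt ℝ (fun X => f (psi0 D j X)) X ∧
      ∀ V, ‖fderiv ℝ (fun X => f (psi0 D j X)) X V‖ ≤ κ * √(D.g j X V V))
    (h1 : ∀ (k : Fin j) (i : Bool), ∀ q ∈ U1,
      DifferentiableAt ℝ (fun q => f (psi1 D j k i q)) q ∧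
      ∀ V, ‖fderiv ℝ (fun q => f (psi1 D j k i q)) q V‖ ≤ κ * √(G1 D j k i q V V))
    (hG : ∀ (k : Fin j) (i : Bool), IsMetricOn (G1 D j k i) U1) {x y : Bl D j} {L : ℝ}
    (h : IsLen (atl D j) x y L) : ‖f x - f y‖ ≤ κ * L := by
  induction h with
  | nil x => simp
  | @cons x y z L L' C hC hs _ ih =>
    have key : ‖f x - f y‖ ≤ κ * L := by
      rcases hC with rfl | ⟨k, i, rfl⟩
      · rw [isSeg_mkC] at hs
        exact hSlo _ F (U0 D j) (psi0 D j) (D.g j) f κ hκ (D.metric j).isOpen
          (D.metric j).smooth.continuousOn (fun q hq => (h0 q hq).1) (fun q hq V => (h0 q hq).2 V)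
          x y L hs
      · rw [isSeg_mkC] at hs
        exact hSlo _ F U1 (psi1 D j k i) (G1 D j k i) f κ hκ (hG k i).isOpen
          (hG k i).smooth.continuousOn (fun q hq => (h1 k i q hq).1)
          (fun q hq V => (h1 k i q hq).2 V) x y L hs
    calc ‖f x - f z‖ ≤ ‖f x - f y‖ + ‖f y - f z‖ := norm_sub_le_norm_sub_add_norm_sub _ _ _
      _ ≤ κ * L + κ * L' := add_le_add key ih
      _ = κ * (L + L') := by ring

theorem lb (hSlo : SloStmt) (hHpl : HplStmt) (hSgl : SglStmt) (hPhi : PhiStmt)
    (hG1m : G1mStmt) (hG1b : G1bStmt) : LbStmt := by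
  intro D
  have c0 := D.c0_pos
  have c1 := D.c1_pos
  set κ : ℝ := 4 * (1 / √D.c0) + 1 / √D.c1 with hκ
  have s0 : 0 < √D.c0 := Real.sqrt_pos.2 c0
  have s1 : 0 < √D.c1 := Real.sqrt_pos.2 c1
  have hκ0 : 0 < κ := by positivity
  have ha : 1 / √D.c0 ≤ κ := by
    rw [hκ]
    have : 0 < 1 / √D.c0 := by positivity
    have : 0 < 1 / √D.c1 := by positivity
    linarith
  have ha4 : 4 * (1 / √D.c0) ≤ κ := by
    rw [hκ]
    have : 0 < 1 / √D.c1 := by positivity
    linarith
  have hb : 1 / √D.c1 ≤ κ := by
    rw [hκ]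
    have : 0 < 1 / √D.c0 := by positivity
    linarith
  refine ⟨1 / κ, by positivity, fun j x y L hL => ?_⟩
  have hLp : dist x y ≤ κ * L := by
    have hG : ∀ (k : Fin j) (i : Bool), IsMetricOn (G1 D j k i) U1 := fun k i => (hG1m D j k i).1
    -- the first component
    have A : ‖x.1.1 - y.1.1‖ ≤ κ * L := by
      refine lip_of_charts hSlo (fun p : Bl D j => p.1.1) κ hκ0.le ?_ ?_ hG hL
      · intro X hX
        refine ⟨differentiableAt_id, fun V => ?_⟩
        have e : fderiv ℝ (fun X => (psi0 D j X).1.1) X = ContinuousLinearMap.id ℝ E4 := fderiv_id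
        rw [e]
        have h := le_of_sq c0 (norm_nonneg V) (D.low j X hX V)
        exact h.trans (mul_le_mul_of_nonneg_right ha (Real.sqrt_nonneg _))
      · intro k i q hq
        have hd : DifferentiableAt ℝ (cm D k i) q :=
          (hPhi.2.2.2 D k i).1.contDiffAt.differentiableAt (by simp)
        refine ⟨hd, fun V => ?_⟩
        have h := le_of_sq c0 (norm_nonneg _) (hG1b D j k i q hq V).1
        exact h.trans (mul_le_mul_of_nonneg_right ha (Real.sqrt_nonneg _))
    -- the other components
    have B : ∀ l : Fin j, ‖x.1.2 l - y.1.2 l‖ ≤ κ * L := by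
      intro l
      refine lip_of_charts hSlo (fun p : Bl D j => p.1.2 l) κ hκ0.le ?_ ?_ hG hL
      · intro X hX
        have hne : X ≠ D.P l := hX l l.2
        have hne' : X - D.P l ≠ 0 := sub_ne_zero.2 hne
        have hh : DifferentiableAt ℝ hopf (X - D.P l) :=
          (hHpl.1.contDiffAt ((isOpen_ne).mem_nhds hne')).differentiableAt (by simp)
        have hsub : HasFDerivAt (fun X : E4 => X - D.P l) (ContinuousLinearMap.id ℝ E4) X :=
          (hasFDerivAt_id X).sub_const _
        have hf : HasFDerivAt (fun X : E4 => D.w l • hopf (X - D.P l))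
            (D.w l • (fderiv ℝ hopf (X - D.P l)).comp (ContinuousLinearMap.id ℝ E4)) X :=
          (hh.hasFDerivAt.comp X hsub).const_smul (D.w l)
        have heq : (fun X : E4 => (psi0 D j X).1.2 l) =ᶠ[𝓝 X]
            fun X : E4 => D.w l • hopf (X - D.P l) := by
          filter_upwards [isOpen_ne.mem_nhds hne] with Y hY
          change D.w l • hd (Y - D.P l) = _
          rw [hd_of_ne (sub_ne_zero.2 hY)]
        have hf' := hf.congr_of_eventuallyEq heq
        refine ⟨hf'.differentiableAt, fun V => ?_⟩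
        rw [hf'.fderiv]
        have h := le_of_sq c1 (mul_nonneg (D.w_pos l).le (norm_nonneg (fderiv ℝ hopf (X - D.P l) V)))
          (D.lowv j l l.2 X hX V)
        have e : ‖(D.w l • (fderiv ℝ hopf (X - D.P l)).comp (ContinuousLinearMap.id ℝ E4)) V‖
            = D.w l * ‖fderiv ℝ hopf (X - D.P l) V‖ := by
          simp [norm_smul, abs_of_pos (D.w_pos l)]
        rw [e]
        exact h.trans (mul_le_mul_of_nonneg_right hb (Real.sqrt_nonneg _))
      · intro k i q hq
        by_cases hlk : l = k
        · subst hlk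
          have hsg : DifferentiableAt ℝ (sg i) q :=
            (hSgl.1 i).contDiffAt.differentiableAt (by simp)
          have e1 : (fun q => (psi1 D j l i q).1.2 l) = fun q => D.w l • sg i q := by
            funext q; simp [psi1]
          have hf : HasFDerivAt (fun q => D.w l • sg i q) (D.w l • fderiv ℝ (sg i) q) q :=
            hsg.hasFDerivAt.const_smul (D.w l)
          refine ⟨?_, fun V => ?_⟩
          · rw [e1]; exact hf.differentiableAt
          · rw [e1, hf.fderiv]
            have h := le_of_sq c1 (mul_nonneg (D.w_pos l).le (norm_nonneg (fderiv ℝ (sg i) q V)))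
              (hG1b D j l i q hq V).2.1
            have e : ‖(D.w l • fderiv ℝ (sg i) q) V‖ = D.w l * ‖fderiv ℝ (sg i) q V‖ := by
              simp [norm_smul, abs_of_pos (D.w_pos l)]
            rw [e]
            exact h.trans (mul_le_mul_of_nonneg_right hb (Real.sqrt_nonneg _))
        · have e1 : (fun q => (psi1 D j k i q).1.2 l)
              = fun q => D.w l • hd (cm D k i q - D.P l) := by
            funext q; simp [psi1, hlk]
          have hh := fun V => (hG1b D j k i q hq V).2.2.2 l hlk
          refine ⟨?_, fun V => ?_⟩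
          · rw [e1]; exact (hh 0).1
          · rw [e1]
            have h1 := (hh V).2
            have h2 : D.c0 * (‖fderiv ℝ (fun q => D.w l • hd (cm D k i q - D.P l)) q V‖ / 4) ^ 2
                ≤ G1 D j k i q V V := by
              rw [div_pow]; linarith
            have h := le_of_sq c0 (by positivity) h2
            have h3 : 4 * (1 / √D.c0 * √(G1 D j k i q V V)) ≤ κ * √(G1 D j k i q V V) := by
              rw [← mul_assoc]
              exact mul_le_mul_of_nonneg_right ha4 (Real.sqrt_nonneg _)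
            linarith
    rw [Subtype.dist_eq, Prod.dist_eq, dist_eq_norm]
    have hκL : 0 ≤ κ * L := (norm_nonneg _).trans A
    refine max_le A ?_
    rw [dist_pi_le_iff hκL]
    intro l
    rw [dist_eq_norm]
    exact B l
  rw [one_div, inv_mul_le_iff₀ hκ0]
  exact hLp

end Pool.Agent.RLim.H74
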